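import Pool.Agent.H59.DE.Sh

/-!
# Ranks with forests as descending links
-/

set_option autoImplicit false

namespace Pool.Agent.H34.RT

open Pool.Agent.H54.CX Pool.Agent.H59.DE

variable {V : Type}

/-- a rank such that the descending links are forests: `δ x y` is the depth of the neighbour `y` of `x` -/
structure Sh0 (X : Cpx V) (N : Type) [Group N] [MulAction N V] {α : Type} [LinearOrder α]
    (rk : V → α) (δ : V → V → ℕ) : Prop where
  rk_ne : ∀ x y, X.Edge x y → rk x ≠ rk y
  rk_inv : ∀ (n : N) x, rk (n • x) = rk x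
  dp_inv : ∀ (n : N) x y, δ (n • x) (n • y) = δ x y
  dp_ne : ∀ x y z, X.Tri x y z → rk y < rk x → rk z < rk x → δ x y ≠ δ x z
  dp_uniq : ∀ x y z z', X.Tri x y z → X.Tri x y z' → rk y < rk x → rk z < rk x → rk z' < rk x →
    δ x z < δ x y → δ x z' < δ x y → z = z'

theorem sh0_of_sh {X : Cpx V} {N : Type} [Group N] [MulAction N V] {α : Type} [LinearOrder α]
    {rk : V → α} {δ : V → V → ℕ} {o : V} (h : Sh X N rk δ o) : Sh0 X N rk δ :=
  ⟨h.rk_ne, h.rk_inv, h.dp_inv, h.dp_ne, h.dp_uniq⟩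

end Pool.Agent.H34.RT
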