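import Pool.Agent.H34.RT.Tree
import Pool.Agent.H54.AR.FreeMain

/-!
# The kernel is in the class
-/

set_option autoImplicit false

namespace Pool.Agent.H34.RT

open Pool.Agent.H98.FJ Pool.Agent.H54.CX Pool.Agent.H54.DD Pool.Agent.H59.DE Pool.Agent.H54.AR
  Pool.Agent.H93.TR

variable {C : (G : Type) → [Group G] → Prop}

section

variable {W U T : Type} {X : Cpx W} {kd : W → ℕ} {τ : W → T} {Y : Cpx U} {kd' : U → ℕ}
  {τ' : U → T} {q : W → U} {N : Type} [Group N] [MulAction N W]

/-- a group which acts on a simply connected typed complex with a quotient with levels -/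
theorem mem_of_quo (hC : Inherits C) (hE : Extension C) (hT : TC X kd τ) (hsc : X.SC)
    (ha : TAct X kd τ N) (hfull : Full X kd N) (hq : H52.FR.IsQuo X kd τ Y kd' τ' q N)
    (hT' : TC Y kd' τ') (hsc' : Y.SC) {lev : U → ℕ} {o : U} (hL : Lv Y kd' lev o)
    {Q : Type} [Group Q] (hQ : C Q) (f : N →* Q) (hf : StabInj W f) : C N := by
  have hc : ∀ x, x = o ∨ ∃ y, Y.Edge x y := by
    intro x
    by_cases hne : ∃ a b, Y.Edge a b
    · exact Or.inr (exists_nb hsc' hne x)
    · left
      obtain ⟨-, hconn, -⟩ := sc_iff.1 hsc'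
      obtain ⟨q, hq⟩ := hconn x o
      clear hconn hL
      induction hq with
      | base => rfl
      | @step b c q _ h' ih =>
        rcases h' with h' | h'
        · exact ih.trans h'
        · exact absurd ⟨_, _, h'⟩ hne
  obtain ⟨R, δ, hR⟩ := H52.FR.exists_rooted hT' hL (H52.FR.fixP hT ha hfull hq) hc
  obtain ⟨o', rfl⟩ := hq.surj o
  exact mem_of_sh hC hE ha.inv hsc (sh0_of_sh (H52.FR.sh_of_rooted hT ha hfull hq hR)) hQ f hf

end

variable {N W T : Type} [Group N] [MulAction N W] {X : Cpx W} {kd : W → ℕ} {τ : W → T}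

/-- **Theorem.** A group which acts on a simply connected typed complex with the closing property, is generated by
elements with a fixed vertex and has a homomorphism to a group of the class which is injective on the stabilisers is in
the class. -/
theorem mem_main (hC : Inherits C) (hE : Extension C) (hT : TC X kd τ) (hsc : X.SC)
    (ha : TAct X kd τ N) (hcl : CL X kd N) (hfull : Full X kd N) (hgen : Gen N W)
    {Q : Type} [Group Q] (hQ : C Q) (f : N →* Q) (hf : StabInj W f) : C N := by
  by_cases hne : ∃ a b, X.Edge a b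
  · have hcl' : CL X kd (⊤ : Subgroup N) :=
      ⟨fun n => hcl.two (n : N), fun n => hcl.four (n : N)⟩
    have hgen' : (⊤ : Subgroup N) ≤ Subgroup.closure {n : N | n ∈ (⊤ : Subgroup N) ∧ ∃ v : W, n • v = v} := by
      have : {n : N | n ∈ (⊤ : Subgroup N) ∧ ∃ v : W, n • v = v} = {n : N | ∃ v : W, n • v = v} := by
        ext n
        simp
      rw [this]
      exact hgen.ge
    have h1 := tquo_tc (hT := hT) (ha := ha) hcl'
    have h2 := tquo_sc (hT := hT) (ha := ha) hsc hgen'
    obtain ⟨a, b, hab⟩ := hne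
    obtain ⟨lev, o, hL⟩ := exists_levels h1 h2 ⟨orb ⊤ a, orb ⊤ b, a, b, rfl, rfl, hab⟩
    exact mem_of_quo hC hE hT hsc ha hfull (isQuo hT ha) h1 h2 hL hQ f hf
  · obtain ⟨⟨x₀⟩, hconn, -⟩ := sc_iff.1 hsc
    have huniq : ∀ a b : W, a = b := by
      intro a b
      obtain ⟨q, hq⟩ := hconn a b
      clear hconn
      induction hq with
      | base => rfl
      | @step b c q _ h' ih =>
        rcases h' with h' | h'
        · exact ih.trans h'
        · exact absurd ⟨_, _, h'⟩ hne
    refine hC.of_injective f ?_ hQ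
    rw [injective_iff_map_eq_one]
    intro n hn
    exact hf x₀ n (huniq _ _) hn

end Pool.Agent.H34.RT
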