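import Pool.Agent.H34.RT.Defs
import Pool.Agent.H34.RM.Ac

/-!
# Cocycles with prescribed values on the tree edges
-/

set_option autoImplicit false

namespace Pool.Agent.H34.RT

open Pool.Agent.H54.CX Pool.Agent.H59.DE Pool.Agent.H34.RM

variable {V : Type} (X : Cpx V) {α : Type} [LinearOrder α] (rk : V → α) (δ : V → V → ℕ)
  (ε : V → V → ℤ)

/-- there is a descending neighbour of smaller depth -/
def Lo (x y : V) : Prop := ∃ z, X.Tri x y z ∧ rk z < rk x ∧ δ x z < δ x y

open Classical in
/-- the potential on the descending link of `x` of the function `w` with the values `ε x` at the roots -/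
noncomputable def potf (x : V) (w : V → V → ℤ) (y : V) : ℤ :=
  if h : Lo X rk δ x y then potf x w h.choose + w h.choose y else ε x y
termination_by δ x y
decreasing_by exact h.choose_spec.2.2

variable {X rk δ ε}

theorem potf_root {x y : V} (w : V → V → ℤ) (h : ¬ Lo X rk δ x y) :
    potf X rk δ ε x w y = ε x y := by
  rw [potf, dif_neg h]

theorem potf_step {x y : V} (w : V → V → ℤ) (h : Lo X rk δ x y) :
    potf X rk δ ε x w y = potf X rk δ ε x w h.choose + w h.choose y := by
  rw [potf, dif_pos h]

variable (X rk δ ε)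

variable [WellFoundedLT α]

open Classical in
/-- the values of the cocycle at the edges from a vertex to the vertices of smaller rank -/
noncomputable def cf : V → V → ℤ :=
  WellFounded.fix (C := fun _ => V → ℤ) (InvImage.wf rk (wellFounded_lt (α := α)))
    (fun x ih => potf X rk δ ε x (fun z y =>
      if h : rk z < rk x ∧ rk y < rk x then (if rk y < rk z then ih z h.1 y else - ih y h.2 z)
      else 0))

variable {X rk δ ε}

open Classical in
theorem cf_eq (x : V) : cf X rk δ ε x = potf X rk δ ε x (fun z y =>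
      if rk z < rk x ∧ rk y < rk x then
        (if rk y < rk z then cf X rk δ ε z y else - cf X rk δ ε y z) else 0) := by
  rw [cf, WellFounded.fix_eq]
  rfl

variable (X rk δ ε)

open Classical in
/-- the cocycle -/
noncomputable def co (x y : V) : ℤ := if rk y < rk x then cf X rk δ ε x y else - cf X rk δ ε y x

variable {X rk δ ε}

theorem co_lt {x y : V} (h : rk y < rk x) : co X rk δ ε x y = cf X rk δ ε x y := if_pos h

theorem co_gt {x y : V} (h : rk x < rk y) : co X rk δ ε x y = - cf X rk δ ε y x :=
  if_neg (not_lt.2 h.le)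

theorem co_anti {x y : V} (h : rk x ≠ rk y) : co X rk δ ε x y = - co X rk δ ε y x := by
  rcases lt_or_gt_of_ne h with h1 | h1
  · rw [co_gt h1, co_lt h1]
  · rw [co_lt h1, co_gt h1, neg_neg]

theorem co_par {x a : V} (h : Par X rk δ x a) : co X rk δ ε x a = ε x a := by
  rw [co_lt h.2.1, cf_eq, potf_root]
  rintro ⟨z, h1, h2, h3⟩
  exact absurd (h.2.2 z h1 h2) (not_lt.2 h3.le)

theorem tri_edges' {x y z : V} (h : X.Tri x y z) :
    X.Edge x y ∧ X.Edge y z ∧ X.Edge x z :=
  ⟨X.edge _ _ _ h, X.edge _ _ _ (X.rot _ _ _ h),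
    X.symm _ _ (X.edge _ _ _ (X.rot _ _ _ (X.rot _ _ _ h)))⟩

theorem tri23 {x y z : V} (h : X.Tri x y z) : X.Tri x z y :=
  X.swap _ _ _ (X.rot _ _ _ (X.rot _ _ _ h))

section

variable {N : Type} [Group N] [MulAction N V] (h : Sh0 X N rk δ)
include h

theorem co_top {x y z : V} (ht : X.Tri x y z) (hy : rk y < rk x) (hz : rk z < rk x)
    (hd : δ x z < δ x y) : co X rk δ ε x y = co X rk δ ε x z + co X rk δ ε z y := by
  have hLo : Lo X rk δ x y := ⟨z, ht, hz, hd⟩
  have hc := hLo.choose_spec
  have e : hLo.choose = z := h.dp_uniq x y _ _ hc.1 ht hy hc.2.1 hz hc.2.2 hd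
  rw [co_lt hy, cf_eq, potf_step _ hLo, e, ← cf_eq, co_lt hz]
  congr 1
  rw [if_pos ⟨hz, hy⟩]
  rfl

theorem co_top' {x y z : V} (ht : X.Tri x y z) (hy : rk y < rk x) (hz : rk z < rk x) :
    co X rk δ ε x z + co X rk δ ε z y = co X rk δ ε x y := by
  rcases lt_or_gt_of_ne (h.dp_ne x y z ht hy hz) with h1 | h1
  · have h2 := co_top h (ε := ε) (tri23 ht) hz hy h1
    rw [h2, co_anti (h.rk_ne z y (X.symm _ _ (tri_edges' ht).2.1))]
    ring
  · exact (co_top h ht hy hz h1).symm

theorem coc : Coc X (co X rk δ ε) := by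
  have an : ∀ {x y : V}, X.Edge x y → co X rk δ ε x y = - co X rk δ ε y x := fun e =>
    co_anti (h.rk_ne _ _ e)
  constructor
  · intro a b hab
    rw [an hab]; ring
  · intro a b d ht
    obtain ⟨e1, e2, e3⟩ := tri_edges' ht
    have n1 := h.rk_ne _ _ e1
    have n2 := h.rk_ne _ _ e2
    have n3 := h.rk_ne _ _ e3
    have a1 := an e1
    have a2 := an e2
    have a3 := an e3
    rcases lt_or_gt_of_ne n1 with h1 | h1
    · rcases lt_or_gt_of_ne n2 with h2 | h2
      · -- `d` is the highest vertex
        have h3 : rk a < rk d := h1.trans h2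
        have k := co_top' h (ε := ε) (x := d) (y := b) (z := a)
          (tri23 (X.rot _ _ _ (X.rot _ _ _ ht))) h2 h3
        linarith
      · -- `b` is the highest vertex
        have k := co_top' h (ε := ε) (x := b) (y := d) (z := a) (X.rot _ _ _ ht) h2 h1
        linarith
    · rcases lt_or_gt_of_ne n3 with h2 | h2
      · have h3 : rk b < rk d := h1.trans h2
        have k := co_top' h (ε := ε) (x := d) (y := b) (z := a)
          (tri23 (X.rot _ _ _ (X.rot _ _ _ ht))) h3 h2
        linarith
      · have k := co_top' h (ε := ε) (x := a) (y := d) (z := b) (tri23 ht) h2 h1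
        linarith

end

end Pool.Agent.H34.RT
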