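import Pool.Agent.H34.RT.Pot
import Pool.Agent.H34.RM.Tree
import Pool.Agent.H54.DD.Defs

/-!
# The tree of the roots of the descending links
-/

set_option autoImplicit false

namespace Pool.Agent.H34.RT

open Pool.Agent.H54.CX Pool.Agent.H59.DE Pool.Agent.H34.RM Pool.Agent.H98.FJ Pool.Agent.H93.TR

variable {V : Type} {X : Cpx V} {α : Type} [LinearOrder α] {rk : V → α} {δ : V → V → ℕ}

theorem Par.ne {x a : V} (h : Par X rk δ x a) : x ≠ a := X.ne _ _ h.1

/-- the graph of the pairs of a vertex and a root of its descending link -/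
def tg (X : Cpx V) (rk : V → α) (δ : V → V → ℕ) : SimpleGraph V where
  Adj x y := Par X rk δ x y ∨ Par X rk δ y x
  symm := ⟨fun _ _ h => h.symm⟩
  loopless := ⟨fun x h => by
    rcases h with h | h <;> exact Par.ne h rfl⟩

variable [WellFoundedLT α] {N : Type} [Group N] [MulAction N V]

theorem tg_lower (h : Sh0 X N rk δ) (x : V) :
    ∀ y, X.Edge x y → rk y < rk x → (tg X rk δ).Reachable x y := by
  induction x using (InvImage.wf rk (wellFounded_lt (α := α))).induction with
  | _ x ih =>
  have ih' : ∀ y z, X.Edge y z → rk y < rk x → rk z < rk x → (tg X rk δ).Reachable y z := by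
    intro y z hyz hy hz
    rcases lt_or_gt_of_ne (h.rk_ne _ _ hyz) with h1 | h1
    · exact (ih z hz y (X.symm _ _ hyz) h1).symm
    · exact ih y hy z hyz h1
  have key : ∀ n y, δ x y = n → X.Edge x y → rk y < rk x → (tg X rk δ).Reachable x y := by
    intro n
    induction n using Nat.strong_induction_on with
    | _ n ihn =>
    intro y hn hxy hy
    by_cases hp : Par X rk δ x y
    · exact SimpleGraph.Adj.reachable (G := tg X rk δ) (Or.inl hp)
    · have h1 : ∃ z, X.Tri x y z ∧ rk z < rk x ∧ ¬ δ x y < δ x z := by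
        by_contra hc
        push Not at hc
        exact hp ⟨hxy, hy, hc⟩
      obtain ⟨z, h2, h3, h4⟩ := h1
      obtain ⟨e1, e2, e3⟩ := tri_edges' h2
      have h5 : δ x z < δ x y := lt_of_le_of_ne (not_lt.1 h4) (h.dp_ne _ _ _ h2 hy h3).symm
      exact (ihn (δ x z) (by omega) z rfl e3 h3).trans (ih' z y (X.symm _ _ e2) h3 hy)
  exact fun y => key _ y rfl

theorem tg_conn (h : Sh0 X N rk δ) (hA : Ac X) : (tg X rk δ).Connected := by
  have := hA.nonempty
  refine ⟨fun a b => ?_⟩
  have h1 := hA.conn a b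
  induction h1 with
  | refl => exact SimpleGraph.Reachable.refl _
  | tail h1 h2 ih =>
    refine ih.trans ?_
    rcases lt_or_gt_of_ne (h.rk_ne _ _ h2) with h3 | h3
    · exact (tg_lower h _ _ (X.symm _ _ h2) h3).symm
    · exact tg_lower h _ _ h2 h3

/-- a function which jumps at one edge of the graph only -/
theorem jump (h : Sh0 X N rk δ) (hA : Ac X) {x a : V} (hp : Par X rk δ x a) :
    ∃ f : V → ℤ, f x ≠ f a ∧ ∀ u v, Par X rk δ u v → ¬ (u = x ∧ v = a) → f u = f v := by
  classical
  let ε : V → V → ℤ := fun u v => if u = x ∧ v = a then 1 else 0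
  obtain ⟨f, hf⟩ := hA.cob _ (coc (ε := ε) h)
  refine ⟨f, ?_, ?_⟩
  · intro he
    have h1 := hf x a hp.1
    rw [co_par hp] at h1
    have h2 : ε x a = 1 := if_pos ⟨rfl, rfl⟩
    rw [h2, he, sub_self] at h1
    norm_num at h1
  · intro u v huv hne
    have h1 := hf u v huv.1
    rw [co_par huv] at h1
    have h2 : ε u v = 0 := if_neg hne
    rw [h2] at h1
    omega

theorem tg_bridge (h : Sh0 X N rk δ) (hA : Ac X) {x a : V} (hp : Par X rk δ x a) :
    (tg X rk δ).IsBridge s(x, a) := by
  rw [SimpleGraph.isBridge_iff]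
  intro hr
  obtain ⟨f, hf1, hf2⟩ := jump h hA hp
  apply hf1
  refine const_of_reach (f := f) ?_ hr
  intro u v huv
  rw [SimpleGraph.deleteEdges_adj] at huv
  rcases huv.1 with h1 | h1
  · refine hf2 u v h1 ?_
    rintro ⟨rfl, rfl⟩
    exact huv.2 rfl
  · refine (hf2 v u h1 ?_).symm
    rintro ⟨rfl, rfl⟩
    exact huv.2 (Sym2.eq_swap)

/-- **Theorem.** The graph of the roots of the descending links is a tree. -/
theorem tg_tree (h : Sh0 X N rk δ) (hA : Ac X) : (tg X rk δ).IsTree := by
  refine ⟨tg_conn h hA, ?_⟩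
  rw [SimpleGraph.isAcyclic_iff_forall_adj_isBridge]
  intro v w hvw
  rcases hvw with h1 | h1
  · exact tg_bridge h hA h1
  · rw [Sym2.eq_swap]
    exact tg_bridge h hA h1

omit [WellFoundedLT α] in
theorem par_smul (hX : X.Inv N) (h : Sh0 X N rk δ) (n : N) {x a : V} (hp : Par X rk δ x a) :
    Par X rk δ (n • x) (n • a) := by
  refine ⟨hX.edge n _ _ hp.1, by rw [h.rk_inv, h.rk_inv]; exact hp.2.1, ?_⟩
  intro z hz hz'
  have h1 := hX.tri n⁻¹ _ _ _ hz
  rw [inv_smul_smul, inv_smul_smul] at h1
  have h2 := hp.2.2 (n⁻¹ • z) h1 (by rw [h.rk_inv]; rwa [h.rk_inv] at hz')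
  have h3 := h.dp_inv n x (n⁻¹ • z)
  rw [smul_inv_smul] at h3
  rw [h.dp_inv, h3]
  exact h2

/-- **Theorem RT.** A group which acts on a simply connected complex with forests as descending links, with a
homomorphism to a group of the class which is injective on the stabilisers, is in the class. -/
theorem mem_of_sh {C : (G : Type) → [Group G] → Prop} (hC : Inherits C) (hE : Extension C)
    {Q : Type} [Group Q] (hX : X.Inv N) (hsc : X.SC) (h : Sh0 X N rk δ) (hQ : C Q) (f : N →* Q)
    (hf : Pool.Agent.H54.DD.StabInj V f) : C N := by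
  have hA : Ac X := ac_of_sc hsc
  refine main hC hE (X := tg X rk δ) ⟨tg_tree h hA, fun g v w hvw => ?_⟩ ?_ hQ f ?_
  · rcases hvw with h1 | h1
    · exact Or.inl (par_smul hX h g h1)
    · exact Or.inr (par_smul hX h g h1)
  · intro v
    refine hC.of_injective (f.comp (MulAction.stabilizer N v).subtype) ?_ hQ
    rw [injective_iff_map_eq_one]
    rintro ⟨g, hg⟩ h1
    exact Subtype.ext (hf v g hg h1)
  · intro n hn v w _ h1 _
    exact hf v n h1 hn

end Pool.Agent.H34.RT
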